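import Mathlib

/-!
Asymptotic sharpness of the lower bound for the number of bent iterative functions.
-/

open Filter Topology

namespace Pool.Agent.Results.MP_f2f693_co.BentIterSharp

/-- Boolean functions in `n` variables, that is, maps from `F_2^n` to `F_2`. -/
abbrev BoolFun (n : ℕ) : Type := (Fin n → ZMod 2) → ZMod 2

/-- The Walsh-Hadamard transform of `f`: the integer
`W_f(y) = ∑_x (-1)^(f(x) + ⟨x,y⟩)`. -/
def walsh {n : ℕ} (f : BoolFun n) (y : Fin n → ZMod 2) : ℤ :=
  ∑ x : Fin n → ZMod 2, (-1 : ℤ) ^ (f x + ∑ i, x i * y i).val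

/-- `f` is bent: `|W_f(y)| = 2^(n/2)` for all `y` (used only for even `n`). -/
def IsBent {n : ℕ} (f : BoolFun n) : Prop := ∀ y, |walsh f y| = 2 ^ (n / 2)

/-- The dual of a bent function `f`: the Boolean function whose value at `y` is `0` if
`W_f(y) = 2^(n/2)` and `1` otherwise; see `walsh_eq_dual` for the defining property
`W_f(y) = 2^(n/2) (-1)^(dual f y)`. -/
def dual {n : ℕ} (f : BoolFun n) : BoolFun n :=
  fun y => if walsh f y = 2 ^ (n / 2) then 0 else 1

/-- The set `B_n` of bent functions in `n` variables. -/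
def bentSet (n : ℕ) : Set (BoolFun n) := {f | IsBent f}

/-- The set `X_n` of all pointwise sums of two bent functions in `n` variables. -/
def sumSet (n : ℕ) : Set (BoolFun n) := {u | ∃ f ∈ bentSet n, ∃ h ∈ bentSet n, u = f + h}

/-- The restriction `g(a, b, ·)` of a Boolean function in `m + 2` variables. -/
def restr {m : ℕ} (g : BoolFun (m + 2)) (a b : ZMod 2) : BoolFun m :=
  fun x => g (Fin.cons a (Fin.cons b x))

/-- The set `BI_(m+2)` of bent iterative functions in `m + 2` variables: the four restrictions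
`g(0,0,·), g(0,1,·), g(1,0,·), g(1,1,·)` are bent and their duals sum to the constant `1`. -/
def bentIterSet (m : ℕ) : Set (BoolFun (m + 2)) :=
  {g | IsBent (restr g 0 0) ∧ IsBent (restr g 0 1) ∧ IsBent (restr g 1 0) ∧
    IsBent (restr g 1 1) ∧
    ∀ y, dual (restr g 0 0) y + dual (restr g 0 1) y + dual (restr g 1 0) y
      + dual (restr g 1 1) y = 1}

/-- The number `L_m = |B_m|^4 / |X_m|`. -/
noncomputable def lowerBound (m : ℕ) : ℝ :=
  ((bentSet m).ncard : ℝ) ^ 4 / ((sumSet m).ncard : ℝ)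

/-! ### Signs -/

/-- the sign of an element of `F_2` -/
def sg (a : ZMod 2) : ℤ := (-1 : ℤ) ^ a.val

lemma sg_zero : sg 0 = 1 := by decide
lemma sg_one : sg 1 = -1 := by decide
lemma sg_add (a b : ZMod 2) : sg (a + b) = sg a * sg b := by
  revert a b; decide
lemma sg_ne_zero (a : ZMod 2) : sg a ≠ 0 := by
  revert a; decide
lemma sg_inj {a b : ZMod 2} (h : sg a = sg b) : a = b := by
  revert h; revert a b; decide
lemma sg_mul_self (a : ZMod 2) : sg a * sg a = 1 := by
  revert a; decide
lemma abs_sg (a : ZMod 2) : |sg a| = 1 := by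
  revert a; decide

lemma zmod2_cases (a : ZMod 2) : a = 0 ∨ a = 1 := by
  revert a; decide

lemma walsh_def {n : ℕ} (f : BoolFun n) (y : Fin n → ZMod 2) :
    walsh f y = ∑ x : Fin n → ZMod 2, sg (f x) * sg (∑ i, x i * y i) := by
  unfold walsh
  refine Finset.sum_congr rfl fun x _ => ?_
  rw [← sg_add]; rfl

lemma char_sum {n : ℕ} (v : Fin n → ZMod 2) (hv : v ≠ 0) :
    ∑ y : Fin n → ZMod 2, sg (∑ i, v i * y i) = 0 := by
  classical
  obtain ⟨j, hj⟩ : ∃ j, v j ≠ 0 := by
    by_contra h
    push Not at h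
    exact hv (funext h)
  have hj1 : v j = 1 := by
    rcases zmod2_cases (v j) with h | h
    · exact absurd h hj
    · exact h
  have key : ∑ y : Fin n → ZMod 2, sg (∑ i, v i * y i)
      = ∑ y : Fin n → ZMod 2, sg (∑ i, v i * ((y + Pi.single j 1 : Fin n → ZMod 2)) i) :=
    (Equiv.sum_comp (Equiv.addRight (Pi.single j (1 : ZMod 2)))
      (fun y : Fin n → ZMod 2 => sg (∑ i, v i * y i))).symm
  have h2 : ∀ y : Fin n → ZMod 2,
      sg (∑ i, v i * ((y + Pi.single j 1 : Fin n → ZMod 2)) i) = - sg (∑ i, v i * y i) := by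
    intro y
    have : ∑ i, v i * ((y + Pi.single j (1 : ZMod 2) : Fin n → ZMod 2)) i
        = (∑ i, v i * y i) + 1 := by
      simp only [Pi.add_apply, mul_add, Finset.sum_add_distrib]
      congr 1
      rw [Finset.sum_eq_single j]
      · simp [hj1]
      · intro b _ hb
        simp [Pi.single_apply, hb]
      · simp
    rw [this, sg_add, sg_one]; ring
  rw [Finset.sum_congr rfl (fun y _ => h2 y), Finset.sum_neg_distrib] at key
  omega

lemma char_sum_ite {n : ℕ} (x z : Fin n → ZMod 2) :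
    ∑ y : Fin n → ZMod 2, sg (∑ i, x i * y i) * sg (∑ i, z i * y i)
      = if x = z then 2 ^ n else 0 := by
  have h : ∀ y : Fin n → ZMod 2,
      sg (∑ i, x i * y i) * sg (∑ i, z i * y i) = sg (∑ i, (x + z) i * y i) := by
    intro y
    rw [← sg_add]
    congr 1
    simp [add_mul, Finset.sum_add_distrib]
  rw [Finset.sum_congr rfl (fun y _ => h y)]
  by_cases hxz : x = z
  · subst hxz
    have hx : x + x = 0 := by
      funext i
      have := zmod2_cases (x i)
      simp only [Pi.add_apply, Pi.zero_apply]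
      rcases this with h | h <;> rw [h] <;> decide
    rw [hx]
    simp [sg_zero]
  · rw [if_neg hxz]
    apply char_sum
    intro h0
    apply hxz
    funext i
    have := congrFun h0 i
    simp only [Pi.add_apply, Pi.zero_apply] at this
    revert this
    rcases zmod2_cases (x i) with h1 | h1 <;> rcases zmod2_cases (z i) with h2 | h2 <;>
      rw [h1, h2] <;> decide

/-- Walsh inversion. -/
lemma walsh_inversion {n : ℕ} (f : BoolFun n) (z : Fin n → ZMod 2) :
    ∑ y : Fin n → ZMod 2, walsh f y * sg (∑ i, z i * y i) = 2 ^ n * sg (f z) := by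
  simp_rw [walsh_def, Finset.sum_mul]
  rw [Finset.sum_comm]
  have : ∀ x : Fin n → ZMod 2,
      ∑ y : Fin n → ZMod 2, sg (f x) * sg (∑ i, x i * y i) * sg (∑ i, z i * y i)
        = sg (f x) * (if x = z then 2 ^ n else 0) := by
    intro x
    rw [← char_sum_ite, Finset.mul_sum]
    exact Finset.sum_congr rfl fun y _ => by ring
  rw [Finset.sum_congr rfl (fun x _ => this x)]
  simp [mul_comm]

lemma walsh_injective {n : ℕ} {f g : BoolFun n} (h : ∀ y, walsh f y = walsh g y) : f = g := by
  funext z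
  have h1 := walsh_inversion f z
  have h2 := walsh_inversion g z
  simp_rw [h] at h1
  rw [h1] at h2
  have h3 : sg (f z) = sg (g z) := by
    have : (2 : ℤ) ^ n ≠ 0 := by positivity
    exact mul_left_cancel₀ this h2
  exact sg_inj h3

/-- The defining property of the dual of a bent function. -/
lemma walsh_eq_dual {n : ℕ} {f : BoolFun n} (hf : IsBent f) (y : Fin n → ZMod 2) :
    walsh f y = 2 ^ (n / 2) * (-1 : ℤ) ^ (dual f y).val := by
  have hy := hf y
  have hpos : (0 : ℤ) < 2 ^ (n / 2) := by positivity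
  unfold dual
  split_ifs with h
  · simp [h]
  · rcases abs_eq hpos.le |>.mp hy with h' | h'
    · exact absurd h' h
    · rw [h']
      have : (-1 : ℤ) ^ (1 : ZMod 2).val = -1 := by decide
      rw [this]; ring

lemma dual_injOn {n : ℕ} {f g : BoolFun n} (hf : IsBent f) (hg : IsBent g)
    (h : dual f = dual g) : f = g := by
  apply walsh_injective
  intro y
  rw [walsh_eq_dual hf, walsh_eq_dual hg, h]

lemma walsh_add_one {n : ℕ} (f : BoolFun n) (y : Fin n → ZMod 2) :
    walsh (f + 1) y = - walsh f y := by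
  rw [walsh_def, walsh_def, ← Finset.sum_neg_distrib]
  refine Finset.sum_congr rfl fun x _ => ?_
  simp only [Pi.add_apply, Pi.one_apply, sg_add, sg_one]
  ring

lemma isBent_add_one {n : ℕ} {f : BoolFun n} (hf : IsBent f) : IsBent (f + 1) := by
  intro y
  rw [walsh_add_one, abs_neg]
  exact hf y

lemma dual_add_one {n : ℕ} {f : BoolFun n} (hf : IsBent f) (y : Fin n → ZMod 2) :
    dual (f + 1) y = dual f y + 1 := by
  have hpos : (0 : ℤ) < 2 ^ (n / 2) := by positivity
  have h1 := walsh_eq_dual (isBent_add_one hf) y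
  have h2 := walsh_eq_dual hf y
  rw [walsh_add_one, h2] at h1
  have h3 : sg (dual (f + 1) y) = sg (dual f y + 1) := by
    rw [sg_add, sg_one]
    have : (2 : ℤ) ^ (n / 2) * sg (dual (f + 1) y) = 2 ^ (n / 2) * (sg (dual f y) * -1) := by
      unfold sg
      linarith
    exact mul_left_cancel₀ hpos.ne' this
  exact sg_inj h3

/-- Adding a linear function shifts the Walsh transform. -/
lemma walsh_add_linear {n : ℕ} (f : BoolFun n) (a y : Fin n → ZMod 2) :
    walsh (fun x => f x + ∑ i, x i * a i) y = walsh f (a + y) := by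
  rw [walsh_def, walsh_def]
  refine Finset.sum_congr rfl fun x _ => ?_
  rw [sg_add, mul_assoc, ← sg_add]
  congr 2
  simp [mul_add, Finset.sum_add_distrib]

lemma isBent_add_linear {n : ℕ} {f : BoolFun n} (hf : IsBent f) (a : Fin n → ZMod 2) :
    IsBent (fun x => f x + ∑ i, x i * a i) := by
  intro y
  rw [walsh_add_linear]
  exact hf _

/-- Sums over `F_2^(m+2)` split into four sums over `F_2^m`. -/
lemma sum_cons_cons {m : ℕ} (F : (Fin (m + 2) → ZMod 2) → ℤ) :
    ∑ x : Fin (m + 2) → ZMod 2, F x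
      = ∑ a : ZMod 2, ∑ b : ZMod 2, ∑ x : Fin m → ZMod 2, F (Fin.cons a (Fin.cons b x)) := by
  rw [← Equiv.sum_comp (Fin.consEquiv (fun _ : Fin (m + 2) => ZMod 2)) F]
  rw [Fintype.sum_prod_type]
  refine Finset.sum_congr rfl fun a _ => ?_
  rw [← Equiv.sum_comp (Fin.consEquiv (fun _ : Fin (m + 1) => ZMod 2))]
  rw [Fintype.sum_prod_type]
  rfl

/-- There is a bent function in every even number of variables. -/
lemma exists_bent (k : ℕ) : ∃ f : BoolFun (2 * k), IsBent f := by
  induction k with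
  | zero =>
    refine ⟨fun _ => 0, fun y => ?_⟩
    have : walsh (fun _ => 0 : BoolFun (2 * 0)) y = 1 := by
      rw [walsh_def]
      simp [sg_zero]
    rw [this]
    simp
  | succ k ih =>
    obtain ⟨f, hf⟩ := ih
    refine ⟨(fun x : Fin (2 * k + 2) → ZMod 2 =>
      x 0 * x 1 + f (fun i => x i.succ.succ) : BoolFun (2 * k + 2)), fun y => ?_⟩
    have hw : walsh (fun x : Fin (2 * k + 2) → ZMod 2 =>
        x 0 * x 1 + f (fun i => x i.succ.succ) : BoolFun (2 * k + 2)) y
        = (∑ a : ZMod 2, ∑ b : ZMod 2, sg (a * b + a * y 0 + b * y 1)) *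
          walsh f (fun i => y i.succ.succ) := by
      rw [walsh_def, sum_cons_cons, Finset.sum_mul]
      refine Finset.sum_congr rfl fun a _ => ?_
      rw [Finset.sum_mul]
      refine Finset.sum_congr rfl fun b _ => ?_
      rw [walsh_def, Finset.mul_sum]
      refine Finset.sum_congr rfl fun x _ => ?_
      rw [← sg_add, ← sg_add, ← sg_add]
      congr 1
      rw [Fin.sum_univ_succ, Fin.sum_univ_succ]
      simp only [Fin.cons_zero, Fin.cons_succ, Fin.succ_zero_eq_one]
      have h1 : (Fin.cons a (Fin.cons b x) : Fin (2 * k + 2) → ZMod 2) 1 = b := by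
        rw [← Fin.succ_zero_eq_one, Fin.cons_succ, Fin.cons_zero]
      rw [h1]
      ring
    rw [hw, abs_mul, hf]
    have h2 : ∀ c d : ZMod 2, |∑ a : ZMod 2, ∑ b : ZMod 2, sg (a * b + a * c + b * d)| = 2 := by
      decide
    rw [h2]
    have h3 : 2 * (k + 1) / 2 = 2 * k / 2 + 1 := by omega
    rw [h3, pow_succ]
    ring

lemma finite_all {n : ℕ} (s : Set (BoolFun n)) : s.Finite := Set.toFinite s

/-- `|B_(2k)| ≥ 2^(2k)`. -/
lemma card_bentSet_ge (k : ℕ) : 2 ^ (2 * k) ≤ (bentSet (2 * k)).ncard := by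
  obtain ⟨f, hf⟩ := exists_bent k
  have hinj : Function.Injective
      (fun a : Fin (2 * k) → ZMod 2 => (fun x => f x + ∑ i, x i * a i : BoolFun (2 * k))) := by
    intro a b hab
    funext j
    have := congrFun hab (Pi.single j 1)
    simpa [Pi.single_apply, Finset.sum_ite_eq] using this
  have h1 : (Set.range
      (fun a : Fin (2 * k) → ZMod 2 =>
        (fun x => f x + ∑ i, x i * a i : BoolFun (2 * k)))).ncard = 2 ^ (2 * k) := by
    rw [← Set.image_univ, Set.ncard_image_of_injective _ hinj, Set.ncard_univ]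
    simp
  rw [← h1]
  apply Set.ncard_le_ncard _ (finite_all _)
  rintro _ ⟨a, rfl⟩
  exact isBent_add_linear hf a

lemma sumSet_nonempty (k : ℕ) : 1 ≤ (sumSet (2 * k)).ncard := by
  obtain ⟨f, hf⟩ := exists_bent k
  rw [Nat.succ_le_iff, Set.ncard_pos (finite_all _)]
  exact ⟨f + f, f, hf, f, hf, rfl⟩

lemma card_sumSet_le (m : ℕ) : (sumSet m).ncard ≤ (bentSet m).ncard ^ 2 := by
  have h : sumSet m = (fun p : BoolFun m × BoolFun m => p.1 + p.2) '' (bentSet m ×ˢ bentSet m) := by
    ext u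
    constructor
    · rintro ⟨f, hf, h, hh, rfl⟩
      exact ⟨(f, h), ⟨hf, hh⟩, rfl⟩
    · rintro ⟨⟨f, h⟩, ⟨hf, hh⟩, rfl⟩
      exact ⟨f, hf, h, hh, rfl⟩
  rw [h, sq, ← Set.ncard_prod]
  exact Set.ncard_image_le (Set.toFinite _)

/-- The function in `m + 2` variables with prescribed restrictions. -/
def glue {m : ℕ} (f0 f1 f2 f3 : BoolFun m) : BoolFun (m + 2) :=
  fun x => if x 0 = 0 then (if x 1 = 0 then f0 (fun i => x i.succ.succ)
      else f1 (fun i => x i.succ.succ))
    else (if x 1 = 0 then f2 (fun i => x i.succ.succ) else f3 (fun i => x i.succ.succ))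

lemma cons_cons_one {m : ℕ} (a b : ZMod 2) (x : Fin m → ZMod 2) :
    (Fin.cons a (Fin.cons b x) : Fin (m + 2) → ZMod 2) 1 = b := by
  rw [← Fin.succ_zero_eq_one, Fin.cons_succ, Fin.cons_zero]

lemma restr_glue {m : ℕ} (f0 f1 f2 f3 : BoolFun m) :
    restr (glue f0 f1 f2 f3) 0 0 = f0 ∧ restr (glue f0 f1 f2 f3) 0 1 = f1 ∧
    restr (glue f0 f1 f2 f3) 1 0 = f2 ∧ restr (glue f0 f1 f2 f3) 1 1 = f3 := by
  refine ⟨?_, ?_, ?_, ?_⟩ <;> funext x <;>
    simp only [restr, glue, Fin.cons_zero, cons_cons_one, Fin.cons_succ] <;> simp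

/-- `|B_m|^2 ≤ |BI_(m+2)|`. -/
lemma card_bentIter_ge (m : ℕ) : (bentSet m).ncard ^ 2 ≤ (bentIterSet m).ncard := by
  rw [sq, ← Set.ncard_prod]
  apply Set.ncard_le_ncard_of_injOn
    (fun p : BoolFun m × BoolFun m => glue p.1 p.1 p.2 (p.2 + 1))
  · rintro ⟨f, h⟩ ⟨hf, hh⟩
    obtain ⟨e0, e1, e2, e3⟩ := restr_glue f f h (h + 1)
    refine ⟨?_, ?_, ?_, ?_, ?_⟩
    · rw [e0]; exact hf
    · rw [e1]; exact hf
    · rw [e2]; exact hh
    · rw [e3]; exact isBent_add_one hh
    · intro y
      rw [e0, e1, e2, e3, dual_add_one hh]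
      rcases zmod2_cases (dual f y) with h1 | h1 <;> rcases zmod2_cases (dual h y) with h2 | h2 <;>
        rw [h1, h2] <;> decide
  · rintro ⟨f, h⟩ _ ⟨f', h'⟩ _ heq
    simp only at heq
    have e := restr_glue f f h (h + 1)
    have e' := restr_glue f' f' h' (h' + 1)
    rw [heq] at e
    have h1 : f = f' := e.1.symm.trans e'.1
    have h2 : h = h' := e.2.2.1.symm.trans e'.2.2.1
    rw [h1, h2]

/-- `|BI_(m+2)| ≤ |B_m|^3`. -/
lemma card_bentIter_le (m : ℕ) : (bentIterSet m).ncard ≤ (bentSet m).ncard ^ 3 := by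
  have h3 : (bentSet m).ncard ^ 3 = (bentSet m ×ˢ (bentSet m ×ˢ bentSet m)).ncard := by
    rw [Set.ncard_prod, Set.ncard_prod]; ring
  rw [h3]
  apply Set.ncard_le_ncard_of_injOn
    (fun g : BoolFun (m + 2) => (restr g 0 0, restr g 0 1, restr g 1 0))
  · rintro g ⟨h0, h1, h2, _, _⟩
    exact ⟨h0, h1, h2⟩
  · rintro g ⟨h0, h1, h2, h3, hs⟩ g' ⟨h0', h1', h2', h3', hs'⟩ heq
    simp only [Prod.mk.injEq] at heq
    obtain ⟨e0, e1, e2⟩ := heq
    have e3 : restr g 1 1 = restr g' 1 1 := by
      apply dual_injOn h3 h3'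
      funext y
      have a := hs y
      have b := hs' y
      rw [← e0, ← e1, ← e2] at b
      exact add_left_cancel (a.trans b.symm)
    funext x
    have hx : x = Fin.cons (x 0) (Fin.cons (x 1) (fun i => x i.succ.succ)) := by
      funext i
      refine Fin.cases ?_ (fun j => ?_) i
      · rw [Fin.cons_zero]
      · rw [Fin.cons_succ]
        refine Fin.cases ?_ (fun l => ?_) j
        · rw [Fin.cons_zero]; rfl
        · rw [Fin.cons_succ]
    rw [hx]
    rcases zmod2_cases (x 0) with h | h <;> rcases zmod2_cases (x 1) with h' | h' <;>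
      rw [h, h']
    · exact congrFun e0 _
    · exact congrFun e1 _
    · exact congrFun e2 _
    · exact congrFun e3 _

lemma lowerBound_ge (k : ℕ) : ((bentSet (2 * k)).ncard : ℝ) ^ 2 ≤ lowerBound (2 * k) := by
  unfold lowerBound
  have h1 : (1 : ℝ) ≤ ((sumSet (2 * k)).ncard : ℝ) := by exact_mod_cast sumSet_nonempty k
  have h2 : ((sumSet (2 * k)).ncard : ℝ) ≤ ((bentSet (2 * k)).ncard : ℝ) ^ 2 := by
    exact_mod_cast card_sumSet_le (2 * k)
  rw [le_div_iff₀ (by linarith)]
  calc ((bentSet (2 * k)).ncard : ℝ) ^ 2 * ((sumSet (2 * k)).ncard : ℝ)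
      ≤ ((bentSet (2 * k)).ncard : ℝ) ^ 2 * ((bentSet (2 * k)).ncard : ℝ) ^ 2 := by gcongr
    _ = ((bentSet (2 * k)).ncard : ℝ) ^ 4 := by ring

lemma lowerBound_le (k : ℕ) : lowerBound (2 * k) ≤ ((bentSet (2 * k)).ncard : ℝ) ^ 4 := by
  unfold lowerBound
  have h1 : (1 : ℝ) ≤ ((sumSet (2 * k)).ncard : ℝ) := by exact_mod_cast sumSet_nonempty k
  exact div_le_self (by positivity) h1

/-- If `N → ∞` and `N^2 ≤ A, C ≤ N^4` then `log log A / log log C → 1`. -/
lemma ratio_tendsto {N A C : ℕ → ℝ} (hN : Tendsto N atTop atTop)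
    (hA1 : ∀ k, N k ^ 2 ≤ A k) (hA2 : ∀ k, A k ≤ N k ^ 4)
    (hC1 : ∀ k, N k ^ 2 ≤ C k) (hC2 : ∀ k, C k ≤ N k ^ 4) :
    Tendsto (fun k => Real.logb 2 (Real.logb 2 (A k)) / Real.logb 2 (Real.logb 2 (C k)))
      atTop (𝓝 1) := by
  have hb : Tendsto (fun k => Real.logb 2 (N k)) atTop atTop :=
    (Real.tendsto_logb_atTop (by norm_num)).comp hN
  have hbb : Tendsto (fun k => Real.logb 2 (Real.logb 2 (N k))) atTop atTop :=
    (Real.tendsto_logb_atTop (by norm_num)).comp hb
  have key : ∀ (D : ℕ → ℝ), (∀ k, N k ^ 2 ≤ D k) → (∀ k, D k ≤ N k ^ 4) →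
      ∀ᶠ k in atTop, 1 + Real.logb 2 (Real.logb 2 (N k)) ≤ Real.logb 2 (Real.logb 2 (D k)) ∧
        Real.logb 2 (Real.logb 2 (D k)) ≤ 2 + Real.logb 2 (Real.logb 2 (N k)) := by
    intro D h1 h2
    filter_upwards [hN.eventually_ge_atTop 2, hb.eventually_ge_atTop 1] with k hk hbk
    have hNpos : 0 < N k := by linarith
    have l1 : 2 * Real.logb 2 (N k) ≤ Real.logb 2 (D k) := by
      have := Real.logb_le_logb_of_le (b := 2) (by norm_num) (by positivity) (h1 k)
      rwa [Real.logb_pow] at this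
    have hDpos : 0 < D k := lt_of_lt_of_le (by positivity) (h1 k)
    have l2 : Real.logb 2 (D k) ≤ 4 * Real.logb 2 (N k) := by
      have := Real.logb_le_logb_of_le (b := 2) (by norm_num) hDpos (h2 k)
      rwa [Real.logb_pow] at this
    constructor
    · have := Real.logb_le_logb_of_le (b := 2) (by norm_num) (by linarith) l1
      rw [Real.logb_mul (by norm_num) (by linarith)] at this
      rw [Real.logb_self_eq_one (by norm_num)] at this
      exact this
    · have := Real.logb_le_logb_of_le (b := 2) (by norm_num) (by linarith) l2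
      rw [Real.logb_mul (by norm_num) (by linarith)] at this
      have h4 : Real.logb 2 4 = 2 := by
        rw [show (4 : ℝ) = 2 ^ (2 : ℕ) by norm_num, Real.logb_pow]
        rw [Real.logb_self_eq_one (by norm_num)]; norm_num
      rw [h4] at this
      exact this
  set t := fun k => Real.logb 2 (Real.logb 2 (N k)) with ht
  have lim1 : Tendsto (fun k => (1 + t k) / (2 + t k)) atTop (𝓝 1) := by
    have h : Tendsto (fun k => 1 - 1 / (2 + t k)) atTop (𝓝 (1 - 0)) := by
      apply Tendsto.sub tendsto_const_nhds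
      have : Tendsto (fun k => 2 + t k) atTop atTop := tendsto_atTop_add_const_left _ _ hbb
      simpa [Pi.inv_def] using this.inv_tendsto_atTop
    rw [sub_zero] at h
    refine h.congr' ?_
    filter_upwards [hbb.eventually_ge_atTop 1] with k hk
    have : (2 + t k) ≠ 0 := by
      have : 1 ≤ t k := hk
      linarith
    field_simp
    ring
  have lim2 : Tendsto (fun k => (2 + t k) / (1 + t k)) atTop (𝓝 1) := by
    have h : Tendsto (fun k => 1 + 1 / (1 + t k)) atTop (𝓝 (1 + 0)) := by
      apply Tendsto.add tendsto_const_nhds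
      have : Tendsto (fun k => 1 + t k) atTop atTop := tendsto_atTop_add_const_left _ _ hbb
      simpa [Pi.inv_def] using this.inv_tendsto_atTop
    rw [add_zero] at h
    refine h.congr' ?_
    filter_upwards [hbb.eventually_ge_atTop 1] with k hk
    have : (1 + t k) ≠ 0 := by
      have : 1 ≤ t k := hk
      linarith
    field_simp
    ring
  refine tendsto_of_tendsto_of_tendsto_of_le_of_le' lim1 lim2 ?_ ?_
  · filter_upwards [key A hA1 hA2, key C hC1 hC2, hbb.eventually_ge_atTop 1] with k a c hk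
    have hk' : 1 ≤ t k := hk
    have a1 : 1 + t k ≤ Real.logb 2 (Real.logb 2 (A k)) := a.1
    have c1 : 1 + t k ≤ Real.logb 2 (Real.logb 2 (C k)) := c.1
    have c2 : Real.logb 2 (Real.logb 2 (C k)) ≤ 2 + t k := c.2
    apply div_le_div₀ (by linarith) a1 (by linarith) c2
  · filter_upwards [key A hA1 hA2, key C hC1 hC2, hbb.eventually_ge_atTop 1] with k a c hk
    have hk' : 1 ≤ t k := hk
    have a2 : Real.logb 2 (Real.logb 2 (A k)) ≤ 2 + t k := a.2
    have c1 : 1 + t k ≤ Real.logb 2 (Real.logb 2 (C k)) := c.1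
    apply div_le_div₀ (by linarith) a2 (by linarith) c1

/-- The answer to Q1: with `n = 2k + 2` running over the even integers, `L_(n-2) > 1` for all
sufficiently large `n`, and `log log L_(n-2) / log log |BI_n| → 1`. -/
theorem result :
    (∀ᶠ k : ℕ in atTop, 1 < lowerBound (2 * k)) ∧
    Tendsto (fun k : ℕ =>
        Real.logb 2 (Real.logb 2 (lowerBound (2 * k))) /
          Real.logb 2 (Real.logb 2 ((bentIterSet (2 * k)).ncard : ℝ)))
      atTop (𝓝 1) := by
  have hN : Tendsto (fun k : ℕ => ((bentSet (2 * k)).ncard : ℝ)) atTop atTop := by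
    apply tendsto_natCast_atTop_atTop.comp
    apply tendsto_atTop_mono (f := fun k : ℕ => k)
    · intro k
      calc k ≤ 2 * k := by omega
        _ ≤ 2 ^ (2 * k) := Nat.lt_two_pow_self.le
        _ ≤ _ := card_bentSet_ge k
    · exact tendsto_id
  constructor
  · filter_upwards [hN.eventually_ge_atTop 2] with k hk
    have := lowerBound_ge k
    nlinarith
  · apply ratio_tendsto hN
    · exact lowerBound_ge
    · exact lowerBound_le
    · intro k
      exact_mod_cast card_bentIter_ge (2 * k)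
    · intro k
      have h1 : ((bentIterSet (2 * k)).ncard : ℝ) ≤ ((bentSet (2 * k)).ncard : ℝ) ^ 3 := by
        exact_mod_cast card_bentIter_le (2 * k)
      have h2 : (1 : ℝ) ≤ ((bentSet (2 * k)).ncard : ℝ) := by
        have : 1 ≤ (bentSet (2 * k)).ncard := le_trans Nat.one_le_two_pow (card_bentSet_ge k)
        exact_mod_cast this
      calc ((bentIterSet (2 * k)).ncard : ℝ) ≤ ((bentSet (2 * k)).ncard : ℝ) ^ 3 := h1
        _ ≤ ((bentSet (2 * k)).ncard : ℝ) ^ 4 := pow_le_pow_right₀ h2 (by norm_num)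

end Pool.Agent.Results.MP_f2f693_co.BentIterSharp
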